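import Pool.Agent.L7h78.DM.Stm

set_option autoImplicit false

open Module Matrix Polynomial

namespace Pool.Agent.L7h53.DM

open Pool.Agent.L7h78.DM

theorem sep_iff {K : Type} [Field K] [CharZero K] {N : ℕ} {p : K[X]} (hp : p.Monic)
    (hd : p.natDegree = N) :
    p.Separable ↔ resultant p (derivative p) N (N - 1) ≠ 0 := by
  have h1 : (derivative p).natDegree = N - 1 := by
    rw [natDegree_derivative, hd]
  have h2 := isUnit_resultant_iff_isCoprime (g := derivative p) hp
  rw [hd, h1] at h2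
  rw [Polynomial.Separable, ← h2, isUnit_iff_ne_zero]

theorem gd_iff {K : Type} [Field K] [CharZero K] {N : ℕ} (Y : Matrix (Fin N) (Fin N) K) :
    Gd Y ↔ resultant Y.charpoly (derivative Y.charpoly) N (N - 1) ≠ 0 ∧
      (N = 6 → 4 * (Y ^ 4).trace - ((Y ^ 2).trace) ^ 2 ≠ 0) := by
  unfold Gd
  have h : Y.charpoly.natDegree = N := by rw [charpoly_natDegree_eq_dim, Fintype.card_fin]
  rw [sep_iff (charpoly_monic Y) h]
  simp only [ne_eq, sub_eq_zero]

theorem t_DESC : S_DESC := by
  intro F _ _ ι N 𝔤 h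
  obtain ⟨Y, hY, hG⟩ := h
  obtain ⟨n, y, g, rfl⟩ := Submodule.mem_span_set'.1 hY
  choose B hB hBg using fun i => (g i).2
  simp only at hBg
  set M : Matrix (Fin N) (Fin N) (MvPolynomial (Fin n) F) :=
    ∑ i, (MvPolynomial.X i : MvPolynomial (Fin n) F) • (B i).map MvPolynomial.C with hM
  have hmap : ∀ {K : Type} [Field K] (φ : MvPolynomial (Fin n) F →+* K),
      φ.mapMatrix M = ∑ i, φ (MvPolynomial.X i) • (B i).map (φ.comp MvPolynomial.C) := by
    intro K _ φ
    rw [hM, map_sum]
    apply Finset.sum_congr rfl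
    intro i _
    ext a b
    simp
  have hy : (MvPolynomial.eval₂Hom ι y).mapMatrix M = ∑ i, y i • (g i : Matrix (Fin N) (Fin N) ℂ) := by
    rw [hmap]
    apply Finset.sum_congr rfl
    intro i _
    rw [← hBg i]
    ext a b
    simp
  have hx : ∀ x : Fin n → F, (MvPolynomial.eval x).mapMatrix M = ∑ i, x i • B i := by
    intro x
    rw [hmap]
    apply Finset.sum_congr rfl
    intro i _
    ext a b
    simp
  set r := resultant M.charpoly (derivative M.charpoly) N (N - 1) with hr
  set q := 4 * (M ^ 4).trace - ((M ^ 2).trace) ^ 2 with hq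
  have hphi : ∀ {K : Type} [Field K] [CharZero K] (φ : MvPolynomial (Fin n) F →+* K),
      Gd (φ.mapMatrix M) ↔ φ r ≠ 0 ∧ (N = 6 → φ q ≠ 0) := by
    intro K _ _ φ
    rw [gd_iff]
    have e1 : (φ.mapMatrix M).charpoly = M.charpoly.map φ := by
      rw [RingHom.mapMatrix_apply, charpoly_map]
    have e2 : resultant (φ.mapMatrix M).charpoly (derivative (φ.mapMatrix M).charpoly) N (N - 1) =
        φ r := by
      rw [e1, derivative_map, resultant_map_map]
    have e3 : ∀ A : Matrix (Fin N) (Fin N) (MvPolynomial (Fin n) F),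
        (φ.mapMatrix A).trace = φ A.trace := by
      intro A
      simp [Matrix.trace, map_sum]
    have e4 : 4 * ((φ.mapMatrix M) ^ 4).trace - (((φ.mapMatrix M) ^ 2).trace) ^ 2 = φ q := by
      have e5 : φ 4 = 4 := map_ofNat φ 4
      rw [← map_pow, ← map_pow, e3, e3, hq, map_sub, map_mul, map_pow, e5]
    rw [e2, e4]
  classical
  rw [← hy, hphi] at hG
  set s := r * (if N = 6 then q else 1) with hs
  have hs0 : s ≠ 0 := by
    intro h0
    have h1 : (MvPolynomial.eval₂Hom ι y) s = 0 := by rw [h0, map_zero]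
    rw [hs, map_mul] at h1
    rcases mul_eq_zero.1 h1 with h2 | h2
    · exact hG.1 h2
    · split_ifs at h2 with h6
      · exact hG.2 h6 h2
      · simp at h2
  have hex : ∃ x : Fin n → F, MvPolynomial.eval x s ≠ 0 := by
    by_contra hne
    push Not at hne
    exact hs0 (MvPolynomial.funext (fun x => by rw [hne x, map_zero]))
  obtain ⟨x, hxs⟩ := hex
  refine ⟨∑ i, x i • B i, Submodule.sum_mem _ (fun i _ => 𝔤.smul_mem _ (hB i)), ?_⟩
  rw [← hx, hphi]
  rw [hs, map_mul] at hxs
  refine ⟨left_ne_zero_of_mul hxs, fun h6 => ?_⟩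
  have := right_ne_zero_of_mul hxs
  rwa [if_pos h6] at this

end Pool.Agent.L7h53.DM

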