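import Pool.Agent.L7h78.DM.Stm

set_option autoImplicit false

open Module Matrix Polynomial

namespace Pool.Agent.L7h53.DM

open Pool.Agent.L7h78.DM

/-- eigenvector of a root -/
theorem exists_ev {A : Type} [Field A] {N : ℕ} {M : Matrix (Fin N) (Fin N) A} {t : A}
    (h : M.charpoly.eval t = 0) : ∃ v : Fin N → A, v ≠ 0 ∧ M *ᵥ v = t • v := by
  rw [Matrix.eval_charpoly] at h
  obtain ⟨v, hv, h1⟩ := Matrix.exists_mulVec_eq_zero_iff.2 h
  refine ⟨v, hv, ?_⟩
  rw [Matrix.sub_mulVec, sub_eq_zero] at h1
  rw [← h1]
  simp

theorem eval_of_ev {A : Type} [Field A] {N : ℕ} {M : Matrix (Fin N) (Fin N) A} {t : A}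
    {v : Fin N → A} (hv : v ≠ 0) (h : M *ᵥ v = t • v) : M.charpoly.eval t = 0 := by
  rw [Matrix.eval_charpoly]
  apply Matrix.exists_mulVec_eq_zero_iff.1
  refine ⟨v, hv, ?_⟩
  rw [Matrix.sub_mulVec, sub_eq_zero, h]
  simp

theorem neg_root {A : Type} [Field A] {N : ℕ} {M J : Matrix (Fin N) (Fin N) A} (hJ : J.det ≠ 0)
    (h : Mᵀ * J + J * M = 0) {t : A} (ht : M.charpoly.eval t = 0) : M.charpoly.eval (-t) = 0 := by
  obtain ⟨v, hv, h1⟩ := exists_ev ht
  rw [← Matrix.charpoly_transpose]
  apply eval_of_ev (v := J *ᵥ v)
  · intro h0
    have hu : IsUnit J := (Matrix.isUnit_iff_isUnit_det _).2 (isUnit_iff_ne_zero.2 hJ)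
    exact hv (Matrix.mulVec_injective_of_isUnit hu (by rw [h0, Matrix.mulVec_zero]))
  · have h2 : Mᵀ * J = - (J * M) := eq_neg_of_add_eq_zero_left h
    rw [Matrix.mulVec_mulVec, h2, Matrix.neg_mulVec, ← Matrix.mulVec_mulVec, h1,
      Matrix.mulVec_smul, neg_smul]

/-- traces of powers from distinct eigenvalues -/
theorem trace_pow {A : Type} [Field A] {N : ℕ} {M : Matrix (Fin N) (Fin N) A} {l : Fin N → A}
    (hl : Function.Injective l) (h : ∀ i, M.charpoly.eval (l i) = 0) (k : ℕ) :
    (M ^ k).trace = ∑ i, l i ^ k := by
  rcases Nat.eq_zero_or_pos N with h0 | h0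
  · subst h0
    simp [Matrix.trace]
  haveI : Nonempty (Fin N) := ⟨⟨0, h0⟩⟩
  choose v hv h1 using fun i => exists_ev (h i)
  have hli : LinearIndependent A v := by
    apply Module.End.eigenvectors_linearIndependent' (Matrix.toLin' M) l hl
    intro i
    refine ⟨?_, hv i⟩
    rw [Module.End.mem_eigenspace_iff, Matrix.toLin'_apply]
    exact h1 i
  let b := basisOfLinearIndependentOfCardEqFinrank (b := v) hli (by simp)
  have hb : ∀ i, b i = v i := fun i => by simp [b]
  have hk : ∀ i, (Matrix.toLin' (M ^ k)) (b i) = (l i ^ k) • b i := by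
    intro i
    rw [hb]
    induction k with
    | zero => simp
    | succ k ih =>
      rw [pow_succ, Matrix.toLin'_mul, LinearMap.comp_apply, Matrix.toLin'_apply M, h1, map_smul,
        ih, smul_smul, pow_succ, mul_comm]
  have e1 : (M ^ k).trace = LinearMap.trace A _ (Matrix.toLin' (M ^ k)) := by
    rw [Matrix.trace_toLin'_eq]
  rw [e1, LinearMap.trace_eq_matrix_trace A b, Matrix.trace]
  apply Finset.sum_congr rfl
  intro i _
  rw [Matrix.diag_apply, LinearMap.toMatrix_apply, hk]
  simp

theorem t_NOR : S_NOR := by
  classical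
  intro F A _ _ _ _ _ N hN J X a hJ hX hG
  have hcA : CharZero A := charZero_of_injective_algebraMap (algebraMap F A).injective
  have e : X + a • (1 : Matrix (Fin N) (Fin N) F) = X - Matrix.scalar (Fin N) (-a) := by
    rw [map_neg, sub_neg_eq_add, Matrix.smul_one_eq_diagonal]; rfl
  have hcp : (X + a • (1 : Matrix (Fin N) (Fin N) F)).charpoly =
      X.charpoly.comp (Polynomial.X + C (-a)) := by
    rw [e, Matrix.charpoly_sub_scalar]
  refine ⟨?_, ?_⟩
  · rw [hcp, Polynomial.Separable, Polynomial.derivative_comp]
    have h1 : IsCoprime (X.charpoly.comp (Polynomial.X + C (-a)))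
        ((derivative X.charpoly).comp (Polynomial.X + C (-a))) := by
      have := IsCoprime.map hG.1 (Polynomial.compRingHom (Polynomial.X + C (-a)))
      simpa using this
    simpa using h1
  · intro I hI hr hs
    set α := algebraMap F A a with hα
    set XA : Matrix (Fin N) (Fin N) A := X.map (algebraMap F A) with hXA
    set JA : Matrix (Fin N) (Fin N) A := J.map (algebraMap F A) with hJA
    have hJA0 : JA.det ≠ 0 := by
      have : JA.det = algebraMap F A J.det := by
        rw [RingHom.map_det]; rfl
      rw [this]
      exact (_root_.map_ne_zero _).2 hJ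
    have hXJ : XAᵀ * JA + JA * XA = 0 := by
      have := congrArg (fun M : Matrix (Fin N) (Fin N) F => (algebraMap F A).mapMatrix M) hX
      simp only [map_add, map_mul, map_zero] at this
      exact this
    have hroot : ∀ t ∈ I, XA.charpoly.eval (t - α) = 0 := by
      intro t ht
      have h1 := (hr t ht).1
      rw [hcp, aeval_comp] at h1
      simp only [map_add, aeval_X, aeval_C, map_neg] at h1
      rw [hXA, Matrix.charpoly_map, ← Polynomial.eval₂_eq_eval_map, ← Polynomial.aeval_def]
      rw [sub_eq_add_neg]
      exact h1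
    have h2a : algebraMap F A (2 * a) = 2 * α := by rw [map_mul, map_ofNat]
    set K : Finset A := I.image (fun t => t - α) with hK
    have hKc : K.card = I.card :=
      Finset.card_image_of_injective _ (fun x y h => by simpa using h)
    have hKr : ∀ s ∈ K, XA.charpoly.eval s = 0 := by
      intro s hs
      obtain ⟨t, ht, rfl⟩ := Finset.mem_image.1 hs
      exact hroot t ht
    have hKn : ∀ s ∈ K, -s ∉ K := by
      intro s hs hs'
      obtain ⟨t, ht, rfl⟩ := Finset.mem_image.1 hs
      obtain ⟨t', ht', h1⟩ := Finset.mem_image.1 hs'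
      apply (hr t ht).2
      have : algebraMap F A (2 * a) - t = t' := by
        rw [h2a]; linear_combination -h1
      rw [this]; exact ht'
    have hsum : ∑ s ∈ K, s = 0 := by
      rw [hK, Finset.sum_image (fun x _ y _ h => by simpa using h), Finset.sum_sub_distrib,
        Finset.sum_const, nsmul_eq_mul]
      rw [h2a] at hs
      have h2 : (2 : A) ≠ 0 := two_ne_zero
      apply mul_left_cancel₀ h2
      rw [mul_zero]
      linear_combination hs
    have hKp : 0 < K.card := by rw [hKc]; exact hI.card_pos
    have hKne : K ∪ K.image (fun s => -s) ⊆ XA.charpoly.roots.toFinset := by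
      intro s hs
      rw [Multiset.mem_toFinset, mem_roots (charpoly_monic XA).ne_zero, IsRoot]
      rcases Finset.mem_union.1 hs with hs | hs
      · exact hKr s hs
      · obtain ⟨t, ht, rfl⟩ := Finset.mem_image.1 hs
        exact neg_root hJA0 hXJ (hKr t ht)
    have hcard : 2 * K.card ≤ N := by
      have h1 := Finset.card_le_card hKne
      rw [Finset.card_union_of_disjoint, Finset.card_image_of_injective _ neg_injective] at h1
      · have h2 := Multiset.toFinset_card_le XA.charpoly.roots
        have h3 := Polynomial.card_roots' XA.charpoly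
        rw [charpoly_natDegree_eq_dim, Fintype.card_fin] at h3
        omega
      · rw [Finset.disjoint_left]
        intro s hs hs'
        obtain ⟨t, ht, rfl⟩ := Finset.mem_image.1 hs'
        exact hKn t ht hs
    have hc3 : K.card = 1 ∨ K.card = 2 ∨ K.card = 3 := by omega
    rcases hc3 with h | h | h
    · obtain ⟨s, hs1⟩ := Finset.card_eq_one.1 h
      rw [hs1, Finset.sum_singleton] at hsum
      have := hKn s (by rw [hs1]; simp)
      rw [hs1, hsum] at this
      simp at this
    · obtain ⟨s, t, hst, hs1⟩ := Finset.card_eq_two.1 h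
      rw [hs1, Finset.sum_pair hst] at hsum
      have := hKn s (by rw [hs1]; simp)
      apply this
      have h1 : -s = t := by linear_combination -hsum
      rw [h1, hs1]; simp
    · obtain ⟨s, t, u, hst, hsu, htu, hs1⟩ := Finset.card_eq_three.1 h
      have hN6 : N = 6 := by omega
      subst hN6
      have hsum' : s + t + u = 0 := by
        rw [hs1, Finset.sum_insert (by simp [hst, hsu]), Finset.sum_pair htu] at hsum
        linear_combination hsum
      have ks : s ∈ K := by rw [hs1]; simp
      have kt : t ∈ K := by rw [hs1]; simp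
      have ku : u ∈ K := by rw [hs1]; simp
      have ns := hKn s ks
      have nt := hKn t kt
      have nu := hKn u ku
      have m1 : ∀ x ∈ K, ∀ y ∈ K, x ≠ -y := by
        intro x hx y hy hxy
        rw [hxy] at hx
        exact hKn y hy hx
      let l : Fin 6 → A := ![s, t, u, -s, -t, -u]
      have hl : Function.Injective l := by
        intro i j hij
        have a1 := m1 s ks s ks
        have a2 := m1 s ks t kt
        have a3 := m1 s ks u ku
        have a4 := m1 t kt s ks
        have a5 := m1 t kt t kt
        have a6 := m1 t kt u ku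
        have a7 := m1 u ku s ks
        have a8 := m1 u ku t kt
        have a9 := m1 u ku u ku
        fin_cases i <;> fin_cases j <;> simp [l] at hij <;>
          first
            | rfl
            | exact absurd hij (by assumption)
            | exact absurd hij.symm (by assumption)
            | (exfalso; simp_all)
      have hlr : ∀ i, XA.charpoly.eval (l i) = 0 := by
        intro i
        fin_cases i
        · exact hKr s ks
        · exact hKr t kt
        · exact hKr u ku
        · exact neg_root hJA0 hXJ (hKr s ks)
        · exact neg_root hJA0 hXJ (hKr t kt)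
        · exact neg_root hJA0 hXJ (hKr u ku)
      have t2 := trace_pow hl hlr 2
      have t4 := trace_pow hl hlr 4
      have hmap : ∀ k : ℕ, (XA ^ k).trace = algebraMap F A ((X ^ k).trace) := by
        intro k
        have h1 : XA ^ k = (X ^ k).map (algebraMap F A) := by
          have := map_pow (algebraMap F A).mapMatrix X k
          exact this.symm
        rw [h1]
        simp [Matrix.trace]
      rw [hmap, Fin.sum_univ_six] at t2 t4
      simp [l] at t2 t4
      apply hG.2 rfl
      apply (algebraMap F A).injective
      rw [map_mul, map_pow, t2, t4, map_ofNat]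
      have hu : u = -(s + t) := by linear_combination hsum'
      rw [hu]; ring

end Pool.Agent.L7h53.DM

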