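import Pool.Agent.L7h78.DM.Stm
import Pool.Agent.L7h53.DM.Nor

set_option autoImplicit false

open Module Matrix Polynomial

namespace Pool.Agent.L7h53.DM

open Pool.Agent.L7h78.DM Pool.Agent.Y102.SP Pool.Agent.R912

theorem finrank_sup_le {U ι : Type} [AddCommGroup U] [Module ℂ U] [FiniteDimensional ℂ U]
    (f : ι → Submodule ℂ U) (F : Finset ι) :
    finrank ℂ (F.sup f : Submodule ℂ U) ≤ ∑ i ∈ F, finrank ℂ (f i) := by
  classical
  induction F using Finset.induction_on with
  | empty => simp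
  | insert i F hi ih =>
    rw [Finset.sup_insert, Finset.sum_insert hi]
    exact (Submodule.finrank_add_le_finrank_add_finrank _ _).trans (by omega)

/-- The set of the weights. -/
theorem exists_W {U : Type} [AddCommGroup U] [Module ℂ U] [FiniteDimensional ℂ U] {T : Type}
    [AddCommGroup T] [Module ℂ T] {L : Submodule ℂ (Module.End ℂ U)} {S : RS L T} (hW : WP S)
    (hM : ∀ χ : Module.Dual ℂ T, finrank ℂ (usp S.ι χ) ≤ 1) :
    ∃ W : Finset (Module.Dual ℂ T), (∀ χ, χ ∈ W ↔ usp S.ι χ ≠ ⊥) ∧ W.card = finrank ℂ U := by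
  classical
  have h1 : ∀ F : Finset (Module.Dual ℂ T), (∀ χ ∈ F, usp S.ι χ ≠ ⊥) → F.card ≤ finrank ℂ U := by
    intro F hF
    refine le_trans ?_ (hW.card F)
    rw [Finset.card_eq_sum_ones]
    exact Finset.sum_le_sum (fun χ hχ => Submodule.one_le_finrank_iff.2 (hF χ hχ))
  have hfin : {χ : Module.Dual ℂ T | usp S.ι χ ≠ ⊥}.Finite := by
    by_contra hinf
    obtain ⟨F, hF, hc⟩ := Set.Infinite.exists_subset_card_eq hinf (finrank ℂ U + 1)
    have := h1 F (fun χ hχ => hF hχ)
    omega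
  refine ⟨hfin.toFinset, fun χ => by simp, ?_⟩
  apply le_antisymm
  · exact h1 _ (fun χ hχ => by simpa using hχ)
  · have htop : (hfin.toFinset.sup (fun χ => usp S.ι χ) : Submodule ℂ U) = ⊤ := by
      rw [eq_top_iff, ← hW.top]
      apply iSup_le
      intro χ
      by_cases hχ : usp S.ι χ = ⊥
      · rw [hχ]; exact bot_le
      · exact Finset.le_sup (f := fun χ => usp S.ι χ) (by simpa using hχ)
    have h2 := finrank_sup_le (fun χ => usp S.ι χ) hfin.toFinset
    rw [htop, finrank_top] at h2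
    refine h2.trans ?_
    rw [Finset.card_eq_sum_ones]
    exact Finset.sum_le_sum (fun χ _ => hM χ)

theorem fin_six {α : Type} [DecidableEq α] {W : Finset α} (hc : W.card = 6) (n : α → α)
    (hn : ∀ x ∈ W, n x ∈ W) (hnn : ∀ x, n (n x) = x) (hf : ∀ x ∈ W, n x ≠ x) :
    ∃ x ∈ W, ∃ y ∈ W, ∃ z ∈ W, x ≠ y ∧ x ≠ n y ∧ x ≠ z ∧ x ≠ n z ∧ y ≠ z ∧ y ≠ n z := by
  obtain ⟨x, hx⟩ : W.Nonempty := Finset.card_pos.1 (by omega)
  have h1 : ((W.erase x).erase (n x)).card = 4 := by
    rw [Finset.card_erase_of_mem, Finset.card_erase_of_mem hx, hc]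
    exact Finset.mem_erase.2 ⟨hf x hx, hn x hx⟩
  obtain ⟨y, hy⟩ : ((W.erase x).erase (n x)).Nonempty := Finset.card_pos.1 (by omega)
  rw [Finset.mem_erase, Finset.mem_erase] at hy
  obtain ⟨hy1, hy2, hy3⟩ := hy
  have hny : n y ∈ ((W.erase x).erase (n x)).erase y := by
    rw [Finset.mem_erase, Finset.mem_erase, Finset.mem_erase]
    refine ⟨hf y hy3, ?_, ?_, hn y hy3⟩
    · intro h
      apply hy2
      rw [← hnn y, h, hnn]
    · intro h
      apply hy1
      rw [← hnn y, h]
  have h2 : (((((W.erase x).erase (n x)).erase y)).erase (n y)).card = 2 := by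
    rw [Finset.card_erase_of_mem hny, Finset.card_erase_of_mem, h1]
    rw [Finset.mem_erase, Finset.mem_erase]
    exact ⟨hy1, hy2, hy3⟩
  obtain ⟨z, hz⟩ : (((((W.erase x).erase (n x)).erase y)).erase (n y)).Nonempty :=
    Finset.card_pos.1 (by omega)
  rw [Finset.mem_erase, Finset.mem_erase, Finset.mem_erase, Finset.mem_erase] at hz
  obtain ⟨hz1, hz2, hz3, hz4, hz5⟩ := hz
  refine ⟨x, hx, y, hy3, z, hz5, Ne.symm hy2, ?_, Ne.symm hz4, ?_, Ne.symm hz2, ?_⟩
  · intro h
    apply hy1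
    rw [h, hnn]
  · intro h
    apply hz3
    rw [h, hnn]
  · intro h
    apply hz1
    rw [h, hnn]

theorem t_GEN (hRS : S_RS) (hWP : S_WP) (hMF : S_MF) (hT3 : S_T3) : S_GEN := by
  classical
  intro N hN L J hJ hL hskew hirr
  rcases Nat.eq_zero_or_pos N with h0 | h0
  · subst h0
    refine ⟨0, L.zero_mem, ?_, fun h => by omega⟩
    have : (0 : Matrix (Fin 0) (Fin 0) ℂ).charpoly = 1 := by
      exact eq_one_of_monic_natDegree_zero (charpoly_monic _) (by
        rw [charpoly_natDegree_eq_dim]; simp)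
    rw [this]; exact separable_one
  have hne : Nonempty (Fin N) := ⟨⟨0, h0⟩⟩
  set L' : Submodule ℂ (Module.End ℂ (Fin N → ℂ)) :=
    L.map (Matrix.toLin' : Matrix (Fin N) (Fin N) ℂ ≃ₗ[ℂ] _).toLinearMap with hL'
  have hmem : ∀ x ∈ L', ∃ a ∈ L, Matrix.toLin' a = x := by
    intro x hx
    obtain ⟨a, ha, h⟩ := hx
    exact ⟨a, ha, h⟩
  have hmem' : ∀ a ∈ L, Matrix.toLin' a ∈ L' := fun a ha => ⟨a, ha, rfl⟩
  have c1 : ∀ x ∈ L', ∀ y ∈ L', x * y - y * x ∈ L' := by
    intro x hx y hy
    obtain ⟨a, ha, rfl⟩ := hmem x hx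
    obtain ⟨b, hb, rfl⟩ := hmem y hy
    have := hmem' _ (hL a ha b hb)
    rw [map_sub, Matrix.toLin'_mul, Matrix.toLin'_mul] at this
    exact this
  have hJu : IsUnit J := (Matrix.isUnit_iff_isUnit_det _).2 (isUnit_iff_ne_zero.2 hJ)
  have htr : ∀ a ∈ L, a.trace = 0 := by
    intro a ha
    have h1 := hskew a ha
    have h2 : J⁻¹ * J = 1 := Matrix.nonsing_inv_mul J ((Matrix.isUnit_iff_isUnit_det _).1 hJu)
    have h3 : a = - (J⁻¹ * (aᵀ * J)) := by
      have : J * a = - (aᵀ * J) := eq_neg_of_add_eq_zero_right h1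
      rw [← Matrix.mul_neg, ← this, ← Matrix.mul_assoc, h2, Matrix.one_mul]
    have h4 : a.trace = - a.trace := by
      conv_lhs => rw [h3]
      rw [Matrix.trace_neg, Matrix.trace_mul_comm, Matrix.mul_assoc,
        Matrix.mul_nonsing_inv J ((Matrix.isUnit_iff_isUnit_det _).1 hJu), Matrix.mul_one,
        Matrix.trace_transpose]
    have h5 : (2 : ℂ) * a.trace = 0 := by linear_combination h4
    rcases mul_eq_zero.1 h5 with h | h
    · norm_num at h
    · exact h
  have c2 : ∀ x ∈ L', LinearMap.trace ℂ (Fin N → ℂ) x = 0 := by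
    intro x hx
    obtain ⟨a, ha, rfl⟩ := hmem x hx
    rw [Matrix.trace_toLin'_eq]
    exact htr a ha
  have c3 : Irr L' := by
    intro P hP hst
    exact hirr P hP (fun x hx u hu => by
      have := hst _ (hmem' x hx) u hu
      rwa [Matrix.toLin'_apply] at this)
  obtain ⟨T, iT1, iT2, ⟨S⟩⟩ := hRS (Fin N → ℂ) L' c1 c2 c3
  have hw : WP S := hWP (Fin N → ℂ) T L' S c3
  have hfr : finrank ℂ (Fin N → ℂ) = N := by simp
  have hM := hMF (Fin N → ℂ) T L' S c3 hw (fun t => c2 _ (S.ιmem t)) (by rw [hfr]; exact hN)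
  obtain ⟨W, hW1, hW2⟩ := exists_W hw hM
  rw [hfr] at hW2
  -- matrices of the elements of the Cartan subalgebra
  have hY : ∀ t, ∃ Y ∈ L, Matrix.toLin' Y = S.ι t := fun t => hmem _ (S.ιmem t)
  -- symmetry
  have hsym : ∀ χ ∈ W, -χ ∈ W := by
    intro χ hχ
    rw [hW1] at hχ ⊢
    obtain ⟨u, hu, hu0⟩ := Submodule.exists_mem_ne_zero_of_ne_bot hχ
    let φ : (Fin N → ℂ) →ₗ[ℂ] ℂ :=
      { toFun := fun v => u ⬝ᵥ (J *ᵥ v)
        map_add' := fun v w => by rw [Matrix.mulVec_add, dotProduct_add]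
        map_smul' := fun c v => by rw [Matrix.mulVec_smul, dotProduct_smul]; rfl }
    have hφ : φ ≠ 0 := by
      intro h
      obtain ⟨i, hi⟩ : ∃ i, u i ≠ 0 := by
        by_contra hc
        push Not at hc
        exact hu0 (funext hc)
      have h1 : φ (J⁻¹ *ᵥ Pi.single i 1) = 0 := by rw [h]; rfl
      have h2 : φ (J⁻¹ *ᵥ Pi.single i 1) = u i := by
        show u ⬝ᵥ (J *ᵥ (J⁻¹ *ᵥ Pi.single i 1)) = u i
        rw [Matrix.mulVec_mulVec,
          Matrix.mul_nonsing_inv J ((Matrix.isUnit_iff_isUnit_det _).1 hJu), Matrix.one_mulVec]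
        simp
      rw [h1] at h2
      exact hi h2.symm
    obtain ⟨ψ, v, hv, hv0⟩ : ∃ ψ, ∃ v ∈ usp S.ι ψ, φ v ≠ 0 := by
      by_contra hc
      push Not at hc
      apply hφ
      have h1 : (⊤ : Submodule ℂ (Fin N → ℂ)) ≤ LinearMap.ker φ := by
        rw [← hw.top]
        exact iSup_le (fun ψ v hv => hc ψ v hv)
      exact LinearMap.ker_eq_top.1 (eq_top_iff.2 h1)
    have hψ : ψ = -χ := by
      ext t
      obtain ⟨Y, hYL, hYt⟩ := hY t
      have e1 : Y *ᵥ v = ψ t • v := by
        have := hv t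
        rwa [← hYt, Matrix.toLin'_apply] at this
      have e2 : Y *ᵥ u = χ t • u := by
        have := hu t
        rwa [← hYt, Matrix.toLin'_apply] at this
      have e3 : J * Y = - (Yᵀ * J) := eq_neg_of_add_eq_zero_right (hskew Y hYL)
      have e4 : u ⬝ᵥ (J *ᵥ (Y *ᵥ v)) = ψ t * φ v := by
        rw [e1, Matrix.mulVec_smul, dotProduct_smul]; rfl
      have e5 : u ⬝ᵥ (J *ᵥ (Y *ᵥ v)) = - (χ t * φ v) := by
        rw [Matrix.mulVec_mulVec, e3, Matrix.neg_mulVec, dotProduct_neg, ← Matrix.mulVec_mulVec,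
          Matrix.dotProduct_mulVec, Matrix.vecMul_transpose, e2, smul_dotProduct]; rfl
      have e6 : (ψ t + χ t) * φ v = 0 := by
        rw [e4] at e5
        linear_combination e5
      rcases mul_eq_zero.1 e6 with h | h
      · rw [LinearMap.neg_apply]; linear_combination h
      · exact absurd h hv0
    rw [← hψ]
    intro hb
    rw [hb, Submodule.mem_bot] at hv
    rw [hv, map_zero] at hv0
    exact hv0 rfl
  -- choice of t
  let D : Finset (Module.Dual ℂ T) :=
    (((W ×ˢ W).image (fun p => p.1 - p.2)) ∪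
      ((W ×ˢ (W ×ˢ W)).image (fun p => p.1 + p.2.1 + p.2.2))).filter (fun f => f ≠ 0)
  obtain ⟨t, ht⟩ := Module.Dual.exists_forall_ne_zero_of_forall_exists
    (fun f : D => (f : Module.Dual ℂ T)) (by
      intro f
      by_contra hc
      push Not at hc
      have : (f : Module.Dual ℂ T) = 0 := LinearMap.ext hc
      exact (Finset.mem_filter.1 f.2).2 this)
  have ht1 : ∀ x ∈ W, ∀ y ∈ W, x t = y t → x = y := by
    intro x hx y hy hxy
    by_contra hne'
    have hm : x - y ∈ D := by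
      refine Finset.mem_filter.2 ⟨Finset.mem_union_left _ ?_, sub_ne_zero.2 hne'⟩
      exact Finset.mem_image.2 ⟨(x, y), Finset.mem_product.2 ⟨hx, hy⟩, rfl⟩
    apply ht ⟨x - y, hm⟩
    show (x - y) t = 0
    rw [LinearMap.sub_apply, hxy, sub_self]
  have ht2 : ∀ x ∈ W, ∀ y ∈ W, ∀ z ∈ W, x + y + z ≠ 0 → x t + y t + z t ≠ 0 := by
    intro x hx y hy z hz hs h
    have hm : x + y + z ∈ D := by
      refine Finset.mem_filter.2 ⟨Finset.mem_union_right _ ?_, hs⟩
      exact Finset.mem_image.2 ⟨(x, y, z), Finset.mem_product.2 ⟨hx,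
        Finset.mem_product.2 ⟨hy, hz⟩⟩, rfl⟩
    apply ht ⟨x + y + z, hm⟩
    show (x + y + z) t = 0
    rw [LinearMap.add_apply, LinearMap.add_apply, h]
  obtain ⟨Y, hYL, hYt⟩ := hY t
  have hroot : ∀ χ ∈ W, Y.charpoly.eval (χ t) = 0 := by
    intro χ hχ
    rw [hW1] at hχ
    obtain ⟨u, hu, hu0⟩ := Submodule.exists_mem_ne_zero_of_ne_bot hχ
    apply eval_of_ev hu0
    have := hu t
    rwa [← hYt, Matrix.toLin'_apply] at this
  refine ⟨Y, hYL, ?_, ?_⟩
  · rw [← nodup_roots_iff_of_splits (charpoly_monic Y).ne_zero (IsAlgClosed.splits _),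
      ← Multiset.toFinset_card_eq_card_iff_nodup]
    apply le_antisymm (Multiset.toFinset_card_le _)
    have h1 : W.image (fun χ => χ t) ⊆ Y.charpoly.roots.toFinset := by
      intro s hs
      obtain ⟨χ, hχ, rfl⟩ := Finset.mem_image.1 hs
      rw [Multiset.mem_toFinset, mem_roots (charpoly_monic Y).ne_zero]
      exact hroot χ hχ
    have h2 := Finset.card_le_card h1
    rw [Finset.card_image_of_injOn (fun x hx y hy h => ht1 x hx y hy h), hW2] at h2
    have h3 := Polynomial.card_roots' Y.charpoly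
    rw [charpoly_natDegree_eq_dim, Fintype.card_fin] at h3
    omega
  · intro h6
    subst h6
    have hdouble : ∀ x : Module.Dual ℂ T, -x = x → x = 0 := by
      intro x hx
      ext t'
      have h1 := LinearMap.congr_fun hx t'
      rw [LinearMap.neg_apply] at h1
      have : (2 : ℂ) * x t' = 0 := by linear_combination -h1
      rcases mul_eq_zero.1 this with h | h
      · norm_num at h
      · simpa using h
    have h0W : (0 : Module.Dual ℂ T) ∉ W := by
      intro hz
      have hcard : (W.erase 0).card = 5 := by rw [Finset.card_erase_of_mem hz, hW2]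
      have hev : ∑ x ∈ W.erase 0, (1 : ZMod 2) = 0 := by
        refine Finset.sum_involution (fun x _ => -x) (fun _ _ => by decide) ?_ ?_ ?_
        · intro x hx _ h
          exact (Finset.mem_erase.1 hx).1 (hdouble x h)
        · intro x hx
          rw [Finset.mem_erase] at hx ⊢
          exact ⟨neg_ne_zero.2 hx.1, hsym x hx.2⟩
        · intro x _
          exact neg_neg x
      rw [Finset.sum_const, hcard] at hev
      exact absurd hev (by decide)
    have hne0 : ∀ x ∈ W, -x ≠ x := by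
      intro x hx h
      exact h0W (by rwa [hdouble x h] at hx)
    obtain ⟨x, hx, y, hy, z, hz, a1, a2, a3, a4, a5, a6⟩ :=
      fin_six hW2 (fun x => -x) hsym neg_neg hne0
    have hx' := hsym x hx
    have hy' := hsym y hy
    have hz' := hsym z hz
    have n0 : ∀ x ∈ W, x ≠ 0 := fun x hx h => h0W (by rwa [h] at hx)
    have hb : ∀ x ∈ W, usp S.ι x ≠ ⊥ := fun x hx => (hW1 x).1 hx
    have key : ∀ x ∈ W, ∀ y ∈ W, ∀ z ∈ W, x ≠ y → x ≠ -y → x ≠ z → x ≠ -z → y ≠ z → y ≠ -z →
        x t + y t + z t ≠ 0 := by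
      intro x hx y hy z hz b1 b2 b3 b4 b5 b6
      apply ht2 x hx y hy z hz
      exact hT3 (Fin 6 → ℂ) T L' S c3 hw (by simp) x y z (hb x hx) (hb _ (hsym x hx)) (hb y hy)
        (hb _ (hsym y hy)) (hb z hz) (hb _ (hsym z hz)) (n0 x hx) (n0 y hy) (n0 z hz)
        b1 b2 b3 b4 b5 b6
    have k1 := key x hx y hy z hz a1 a2 a3 a4 a5 a6
    have k2 := key (-x) hx' y hy z hz (fun h => a2 (by rw [← h, neg_neg]))
      (fun h => a1 (neg_injective h)) (fun h => a4 (by rw [← h, neg_neg]))
      (fun h => a3 (neg_injective h)) a5 a6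
    have k3 := key x hx (-y) hy' z hz a2 (by rw [neg_neg]; exact a1) a3 a4
      (fun h => a6 (by rw [← h, neg_neg])) (fun h => a5 (neg_injective h))
    have k4 := key x hx y hy (-z) hz' a1 a2 a4 (by rw [neg_neg]; exact a3) a6
      (by rw [neg_neg]; exact a5)
    rw [LinearMap.neg_apply] at k2 k3 k4
    let l : Fin 6 → ℂ := ![x t, y t, z t, -x t, -y t, -z t]
    have hl : Function.Injective l := by
      have g : ∀ x ∈ W, ∀ y ∈ W, x ≠ y → x t ≠ y t := fun x hx y hy h h' => h (ht1 x hx y hy h')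
      have g1 := g x hx y hy a1
      have g2 := g x hx z hz a3
      have g3 := g y hy z hz a5
      have g4 := g x hx _ hx' (fun h => hne0 x hx h.symm)
      have g5 := g x hx _ hy' a2
      have g6 := g x hx _ hz' a4
      have g7 := g y hy _ hx' (fun h => a2 (by rw [h, neg_neg]))
      have g8 := g y hy _ hy' (fun h => hne0 y hy h.symm)
      have g9 := g y hy _ hz' a6
      have g10 := g z hz _ hx' (fun h => a4 (by rw [h, neg_neg]))
      have g11 := g z hz _ hy' (fun h => a6 (by rw [h, neg_neg]))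
      have g12 := g z hz _ hz' (fun h => hne0 z hz h.symm)
      rw [LinearMap.neg_apply] at g4 g5 g6 g7 g8 g9 g10 g11 g12
      intro i j hij
      fin_cases i <;> fin_cases j <;> simp [l] at hij <;>
        first
          | rfl
          | exact absurd hij (by assumption)
          | exact absurd hij.symm (by assumption)
    have hlr : ∀ i, Y.charpoly.eval (l i) = 0 := by
      intro i
      fin_cases i
      · exact hroot x hx
      · exact hroot y hy
      · exact hroot z hz
      · exact hroot _ hx'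
      · exact hroot _ hy'
      · exact hroot _ hz'
    have t2 := trace_pow hl hlr 2
    have t4 := trace_pow hl hlr 4
    rw [Fin.sum_univ_six] at t2 t4
    simp [l] at t2 t4
    intro h
    rw [t2, t4] at h
    have hprod : (x t + y t + z t) * (-x t + y t + z t) * (x t + -y t + z t) *
        (x t + y t + -z t) = 0 := by linear_combination (-1 / 4 : ℂ) * h
    exact (mul_ne_zero (mul_ne_zero (mul_ne_zero k1 k2) k3) k4) hprod

end Pool.Agent.L7h53.DM

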