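import Pool.Agent.L7h78.DM.Stm

set_option autoImplicit false

open Module Matrix Polynomial

namespace Pool.Agent.L7h53.DM

open Pool.Agent.L7h78.DM

theorem t_IRR : S_IRR := by
  intro F _ _ ι N J 𝔤 hsim hgen P hP hst
  have h1 : ∀ Y ∈ 𝔤, ∀ u ∈ P, Y.map ι *ᵥ u ∈ P := by
    intro Y hY u hu
    obtain ⟨c, hc⟩ := hsim Y hY
    have h2 : (2 : F) ≠ 0 := two_ne_zero
    have hX : Y - (c / 2) • (1 : Matrix (Fin N) (Fin N) F) ∈ Sk J 𝔤 := by
      refine ⟨?_, c / 2, ?_⟩
      · rw [Matrix.transpose_sub, Matrix.transpose_smul, Matrix.transpose_one, Matrix.sub_mul,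
          Matrix.mul_sub, Matrix.smul_mul, Matrix.mul_smul, Matrix.one_mul, Matrix.mul_one]
        have e : Yᵀ * J - (c / 2) • J + (J * Y - (c / 2) • J) =
            (Yᵀ * J + J * Y) - ((c / 2) + (c / 2)) • J := by
          rw [add_smul]; abel
        rw [e, hc, add_halves, sub_self]
      · rw [sub_add_cancel]; exact hY
    have h3 := hst _ hX u hu
    have e2 : Y.map ι *ᵥ u =
        (Y - (c / 2) • (1 : Matrix (Fin N) (Fin N) F)).map ι *ᵥ u + ι (c / 2) • u := by
      have e3 : (Y - (c / 2) • (1 : Matrix (Fin N) (Fin N) F)).map ι =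
          Y.map ι - ι (c / 2) • (1 : Matrix (Fin N) (Fin N) ℂ) := by
        ext i j
        by_cases hij : i = j
        · subst hij; simp
        · simp [Matrix.one_apply_ne hij]
      rw [e3, Matrix.sub_mulVec, Matrix.smul_mulVec, Matrix.one_mulVec, sub_add_cancel]
    rw [e2]
    exact P.add_mem h3 (P.smul_mem _ hu)
  have h2 : ∀ Z : Matrix (Fin N) (Fin N) F, ∀ u ∈ P, Z.map ι *ᵥ u ∈ P := by
    intro Z
    have hZ : Z ∈ Algebra.adjoin F (𝔤 : Set (Matrix (Fin N) (Fin N) F)) := by
      rw [hgen]; exact Algebra.mem_top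
    induction hZ using Algebra.adjoin_induction with
    | mem x hx => exact h1 x hx
    | algebraMap r =>
      intro u hu
      have e : (algebraMap F (Matrix (Fin N) (Fin N) F) r).map ι *ᵥ u = ι r • u := by
        have : (algebraMap F (Matrix (Fin N) (Fin N) F) r).map ι =
            ι r • (1 : Matrix (Fin N) (Fin N) ℂ) := by
          ext i j
          by_cases hij : i = j
          · subst hij; simp [Matrix.algebraMap_matrix_apply]
          · simp [Matrix.algebraMap_matrix_apply, hij]
        rw [this, Matrix.smul_mulVec, Matrix.one_mulVec]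
      rw [e]; exact P.smul_mem _ hu
    | add x y _ _ hx hy =>
      intro u hu
      have e : (x + y).map ι = x.map ι + y.map ι := by
        ext i j; simp
      rw [e, Matrix.add_mulVec]
      exact P.add_mem (hx u hu) (hy u hu)
    | mul x y _ _ hx hy =>
      intro u hu
      have e : (x * y).map ι = x.map ι * y.map ι := Matrix.map_mul
      rw [e, ← Matrix.mulVec_mulVec]
      exact hx _ (hy u hu)
  obtain ⟨u, hu, hu0⟩ := Submodule.exists_mem_ne_zero_of_ne_bot hP
  obtain ⟨j, hj⟩ : ∃ j, u j ≠ 0 := by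
    by_contra h
    push Not at h
    exact hu0 (funext h)
  have h3 : ∀ i, Pi.single i (1 : ℂ) ∈ P := by
    intro i
    have h4 := h2 (Matrix.single i j 1) u hu
    have e : (Matrix.single i j (1 : F)).map ι *ᵥ u = (u j) • Pi.single i (1 : ℂ) := by
      ext k
      simp only [Matrix.mulVec, dotProduct, Matrix.map_apply, Matrix.single_apply]
      by_cases hk : i = k
      · subst hk
        simp
      · simp [hk, Pi.single_apply, Ne.symm hk]
    rw [e] at h4
    have := P.smul_mem (u j)⁻¹ h4
    rwa [smul_smul, inv_mul_cancel₀ hj, one_smul] at this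
  rw [eq_top_iff]
  intro x _
  have : x = ∑ i, x i • Pi.single i (1 : ℂ) := by
    ext k
    simp [Pi.single_apply]
  rw [this]
  exact P.sum_mem (fun i _ => P.smul_mem _ (h3 i))

end Pool.Agent.L7h53.DM

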